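import Mathlib

set_option autoImplicit false

namespace Pool.Agent.Run7.h187.EX

open Finset Complex
open scoped ComplexConjugate

variable {n : ℕ} [NeZero n]

theorem norm_e (x : ZMod n) : ‖(ZMod.stdAddChar x : ℂ)‖ = 1 :=
  AddChar.norm_apply _ x

theorem e_conj (x : ZMod n) : (ZMod.stdAddChar x : ℂ) * conj (ZMod.stdAddChar x : ℂ) = 1 := by
  rw [Complex.mul_conj, Complex.normSq_eq_norm_sq, norm_e]; norm_num

/-- autocorrelation and Fourier transform -/
theorem dft_of_corr (d : ZMod n → ℂ) (hs : ∀ s : ZMod n, s ≠ 0 → ∑ x, d x * conj (d (x + s)) = 0)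
    {N : ℝ} (hN : ∑ x, ‖d x‖ ^ 2 = N) (t : ZMod n) :
    ‖∑ x, d x * ZMod.stdAddChar (x * t)‖ ^ 2 = N := by
  have h1 : ((‖∑ x, d x * ZMod.stdAddChar (x * t)‖ ^ 2 : ℝ) : ℂ) =
      ∑ s : ZMod n, conj (ZMod.stdAddChar (s * t) : ℂ) * ∑ x, d x * conj (d (x + s)) := by
    rw [← Complex.normSq_eq_norm_sq, ← Complex.mul_conj, map_sum, Finset.sum_mul_sum]
    have h2 : ∀ x : ZMod n, ∑ y, d x * ZMod.stdAddChar (x * t) * conj (d y * ZMod.stdAddChar (y * t)) =
        ∑ s, d x * ZMod.stdAddChar (x * t) * conj (d (x + s) * ZMod.stdAddChar ((x + s) * t)) := by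
      intro x
      exact (Equiv.sum_comp (Equiv.addLeft x)
        (fun y => d x * ZMod.stdAddChar (x * t) * conj (d y * ZMod.stdAddChar (y * t)))).symm
    rw [Finset.sum_congr rfl (fun x _ => h2 x), Finset.sum_comm]
    refine Finset.sum_congr rfl fun s _ => ?_
    rw [Finset.mul_sum]
    refine Finset.sum_congr rfl fun x _ => ?_
    rw [add_mul, AddChar.map_add_eq_mul, map_mul (starRingEnd ℂ), map_mul (starRingEnd ℂ)]
    linear_combination (d x * conj (d (x + s)) * conj (ZMod.stdAddChar (s * t) : ℂ)) * e_conj (x * t)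
  have h3 : ((‖∑ x, d x * ZMod.stdAddChar (x * t)‖ ^ 2 : ℝ) : ℂ) = (N : ℂ) := by
    rw [h1, Finset.sum_eq_single (0 : ZMod n)]
    · rw [zero_mul, AddChar.map_zero_eq_one, map_one, one_mul, ← hN]
      push_cast
      refine Finset.sum_congr rfl fun x _ => ?_
      rw [add_zero, Complex.mul_conj, Complex.normSq_eq_norm_sq]
      push_cast
      rfl
    · intro s _ h
      rw [hs s h, mul_zero]
    · intro h; exact absurd (mem_univ _) h
  exact_mod_cast h3

/-- orthogonality -/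
theorem plancherel (a : ZMod n → ℂ) :
    ∑ t : ZMod n, ‖∑ x, a x * ZMod.stdAddChar (x * t)‖ ^ 2 = n * ∑ x, ‖a x‖ ^ 2 := by
  have horth : ∀ x y : ZMod n, ∑ t : ZMod n, (ZMod.stdAddChar (x * t) : ℂ) * conj (ZMod.stdAddChar (y * t) : ℂ) =
      if x = y then (n : ℂ) else 0 := by
    intro x y
    have h1 : ∀ t : ZMod n, (ZMod.stdAddChar (x * t) : ℂ) * conj (ZMod.stdAddChar (y * t) : ℂ) =
        ZMod.stdAddChar (t * (x - y)) := by
      intro t
      have h2 : (x : ZMod n) * t = t * (x - y) + y * t := by ring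
      rw [h2, AddChar.map_add_eq_mul, mul_assoc, e_conj, mul_one]
    rw [Finset.sum_congr rfl fun t _ => h1 t,
      AddChar.sum_mulShift (x - y) (ZMod.isPrimitive_stdAddChar n)]
    simp only [sub_eq_zero, ZMod.card]
    split_ifs <;> simp
  have h : ((∑ t : ZMod n, ‖∑ x, a x * ZMod.stdAddChar (x * t)‖ ^ 2 : ℝ) : ℂ) =
      ((n * ∑ x, ‖a x‖ ^ 2 : ℝ) : ℂ) := by
    push_cast
    have h1 : ∀ t : ZMod n, ((‖∑ x, a x * ZMod.stdAddChar (x * t)‖ : ℂ)) ^ 2 =
        ∑ x, ∑ y, (a x * conj (a y)) * ((ZMod.stdAddChar (x * t) : ℂ) * conj (ZMod.stdAddChar (y * t) : ℂ)) := by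
      intro t
      rw [← Complex.ofReal_pow, ← Complex.normSq_eq_norm_sq, ← Complex.mul_conj, map_sum,
        Finset.sum_mul_sum]
      refine Finset.sum_congr rfl fun x _ => Finset.sum_congr rfl fun y _ => ?_
      rw [map_mul (starRingEnd ℂ)]; ring
    rw [Finset.sum_congr rfl fun t _ => h1 t, Finset.sum_comm, Finset.mul_sum]
    refine Finset.sum_congr rfl fun x _ => ?_
    rw [Finset.sum_comm]
    simp only [← Finset.mul_sum, horth]
    rw [Finset.sum_eq_single x]
    · rw [if_pos rfl, Complex.mul_conj, Complex.normSq_eq_norm_sq]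
      push_cast; ring
    · intro y _ hy
      rw [if_neg (fun h => hy h.symm), mul_zero]
    · intro h; exact absurd (mem_univ _) h
  exact_mod_cast h

end Pool.Agent.Run7.h187.EX
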