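import Pool.Agent.Run7.h187.EX.Fld
import Pool.Agent.Run7.h187.EX.Dft

set_option autoImplicit false
set_option linter.unusedSectionVars false

namespace Pool.Agent.Run7.h187.EX

open Finset Complex
open scoped ComplexConjugate

/-- sums of periodic functions over `ZMod n` -/
theorem sum_zmod {n : ℕ} [NeZero n] (f : ZMod n → ℂ) : ∑ x : ZMod n, f x = ∑ k ∈ range n, f (k : ZMod n) := by
  symm
  refine Finset.sum_nbij' (fun k : ℕ => (k : ZMod n)) (fun x : ZMod n => x.val) ?_ ?_ ?_ ?_ ?_
  · intro k _; exact mem_univ _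
  · intro x _; exact mem_range.2 (ZMod.val_lt x)
  · intro k hk; exact ZMod.val_cast_of_lt (mem_range.1 hk)
  · intro x _; exact ZMod.natCast_zmod_val x
  · intro k _; rfl

theorem sum_periods (e : ℕ → ℂ) {n : ℕ} (he : Function.Periodic e n) (m : ℕ) :
    ∑ k ∈ range (m * n), e k = m * ∑ k ∈ range n, e k := by
  induction m with
  | zero => simp
  | succ m ih =>
    rw [Nat.succ_mul, Finset.sum_range_add, ih]
    have h : ∀ k ∈ range n, e (m * n + k) = e k := by
      intro k _
      rw [add_comm]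
      exact he.nat_mul m k
    rw [Finset.sum_congr rfl h]
    push_cast; ring

section fields

variable {F K : Type} [Field F] [Fintype F] [DecidableEq F] [Field K] [Fintype K] [DecidableEq K]
  [Algebra F K]

/-- the perfect sequence -/
noncomputable def D (F : Type) {K : Type} [Field F] [Field K] [Algebra F K] (χ : MulChar K ℂ) (g : K) (k : ℕ) : ℂ :=
  conj (χ (g ^ k)) * χ (algebraMap F K (Algebra.trace F K (g ^ k)))

theorem pow_mem (h2 : Module.finrank F K = 2) (g : K) (hg : g ≠ 0) :
    ∃ h : F, h ≠ 0 ∧ g ^ (Fintype.card F + 1) = algebraMap F K h := by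
  refine ⟨Algebra.norm F g, ?_, ?_⟩
  · haveI : FiniteDimensional F K := Module.Finite.of_finite
    exact Algebra.norm_ne_zero_iff.2 hg
  · rw [FiniteField.algebraMap_norm_eq_pow]
    congr 1
    rw [Nat.card_eq_fintype_card, Nat.card_eq_fintype_card, card_K h2]
    have hq := Fintype.one_lt_card (α := F)
    obtain ⟨m, hm⟩ : ∃ m, Fintype.card F = m + 2 := ⟨Fintype.card F - 2, by omega⟩
    rw [hm]
    symm
    have : (m + 2) ^ 2 - 1 = (m + 2 + 1) * (m + 2 - 1) := by
      have h1 : m + 2 - 1 = m + 1 := rfl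
      rw [h1]
      have h3 : (m + 2) ^ 2 = (m + 2 + 1) * (m + 1) + 1 := by ring
      omega
    rw [this]
    exact Nat.mul_div_cancel _ (by omega)

theorem D_periodic (h2 : Module.finrank F K = 2) (χ : MulChar K ℂ) (g : K) (hg : g ≠ 0) :
    Function.Periodic (D F χ g) (Fintype.card F + 1) := by
  intro k
  obtain ⟨h, h0, hh⟩ := pow_mem h2 g hg
  unfold D
  have h3 : g ^ (k + (Fintype.card F + 1)) = h • g ^ k := by
    rw [pow_add, hh, Algebra.smul_def, mul_comm]
  have h5 : algebraMap F K (Algebra.trace F K (h • g ^ k)) =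
      algebraMap F K h * algebraMap F K (Algebra.trace F K (g ^ k)) := by
    rw [map_smul, smul_eq_mul, map_mul]
  rw [h3, h5, Algebra.smul_def, map_mul χ, map_mul χ, map_mul (starRingEnd ℂ)]
  have h4 : χ (algebraMap F K h) * conj (χ (algebraMap F K h)) = 1 := by
    rw [Complex.mul_conj, Complex.normSq_eq_norm_sq, norm_chi χ ((map_ne_zero _).2 h0)]
    norm_num
  linear_combination (conj (χ (g ^ k)) * χ (algebraMap F K (Algebra.trace F K (g ^ k)))) * h4

theorem D_corr (χ : MulChar K ℂ) (g : K) (hg : g ≠ 0) (k s : ℕ) :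
    D F χ g k * conj (D F χ g (k + s)) = χ (g ^ s) *
      (χ (algebraMap F K (Algebra.trace F K (g ^ k))) *
        conj (χ (algebraMap F K (Algebra.trace F K (g ^ s * g ^ k))))) := by
  unfold D
  have h4 : χ (g ^ k) * conj (χ (g ^ k)) = 1 := by
    rw [Complex.mul_conj, Complex.normSq_eq_norm_sq, norm_chi χ (pow_ne_zero _ hg)]
    norm_num
  rw [map_mul (starRingEnd ℂ), Complex.conj_conj, pow_add, map_mul χ (g ^ k) (g ^ s), mul_comm (g ^ k) (g ^ s)]
  linear_combination (χ (g ^ s) * χ (algebraMap F K (Algebra.trace F K (g ^ k))) *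
    conj (χ (algebraMap F K (Algebra.trace F K (g ^ s * g ^ k))))) * h4

/-- `g ^ s` lies in the small field only if `q + 1` divides `s` -/
theorem dvd_of_mem (h2 : Module.finrank F K = 2) (g : Kˣ) (hg : ∀ x, x ∈ Subgroup.zpowers g) {s : ℕ}
    (h : (g : K) ^ s ∈ Set.range (algebraMap F K)) : (Fintype.card F + 1) ∣ s := by
  obtain ⟨u, hu⟩ := h
  have hu0 : u ≠ 0 := by
    rintro rfl
    rw [map_zero] at hu
    exact pow_ne_zero s g.ne_zero hu.symm
  have h1 : g ^ (s * (Fintype.card F - 1)) = 1 := by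
    apply Units.ext
    rw [Units.val_pow_eq_pow_val, pow_mul, ← hu, ← map_pow, FiniteField.pow_card_sub_one_eq_one u hu0,
      map_one, Units.val_one]
  have h3 := orderOf_dvd_of_pow_eq_one h1
  rw [orderOf_eq_card_of_forall_mem_zpowers hg, Nat.card_eq_fintype_card, Fintype.card_units, card_K h2] at h3
  have hq := Fintype.one_lt_card (α := F)
  obtain ⟨m, hm⟩ : ∃ m, Fintype.card F = m + 2 := ⟨Fintype.card F - 2, by omega⟩
  rw [hm] at h3 ⊢
  have h5 : m + 2 - 1 = m + 1 := rfl
  have h4 : (m + 2) ^ 2 - 1 = (m + 2 + 1) * (m + 2 - 1) := by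
    rw [h5]
    have h3 : (m + 2) ^ 2 = (m + 2 + 1) * (m + 1) + 1 := by ring
    omega
  rw [h4, h5] at h3
  exact Nat.dvd_of_mul_dvd_mul_right (by omega) h3

theorem sum_gen (g : Kˣ) (hg : ∀ x, x ∈ Subgroup.zpowers g) (f : K → ℂ) (h0 : f 0 = 0) :
    ∑ k ∈ range (Fintype.card Kˣ), f ((g : K) ^ k) = ∑ y : K, f y := by
  have h1 : ∑ y : K, f y = ∑ x : Kˣ, f (x : K) := by
    have := Fintype.sum_eq_add_sum_compl (0 : K) f
    rw [this, h0, zero_add]
    symm
    refine Finset.sum_bij (fun (x : Kˣ) _ => (x : K)) ?_ ?_ ?_ ?_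
    · intro x _; simp
    · intro x _ y _ h; exact Units.ext h
    · intro y hy
      have hy0 : y ≠ 0 := by simpa using hy
      exact ⟨Units.mk0 y hy0, mem_univ _, rfl⟩
    · intro x _; rfl
  rw [h1]
  have h2 := IsCyclic.image_range_card hg
  rw [← h2, Finset.sum_image]
  · simp [Nat.card_eq_fintype_card]
  · intro i hi j hj hij
    have hi' : i < orderOf g := by
      rw [orderOf_eq_card_of_forall_mem_zpowers hg]; exact mem_range.1 hi
    have hj' : j < orderOf g := by
      rw [orderOf_eq_card_of_forall_mem_zpowers hg]; exact mem_range.1 hj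
    exact pow_injOn_Iio_orderOf hi' hj' hij

end fields

end Pool.Agent.Run7.h187.EX
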