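import Pool.Agent.Run7.h187.EX.Cyc

set_option autoImplicit false
set_option linter.unusedSectionVars false

namespace Pool.Agent.Run7.h187.EX

open Finset Complex
open scoped ComplexConjugate

/-- there is a perfect unimodular sequence on `ZMod n` with one zero -/
def Perfect (n : ℕ) [NeZero n] : Prop :=
  ∃ (d : ZMod n → ℂ) (x₀ : ZMod n), d x₀ = 0 ∧ (∀ x, x ≠ x₀ → ‖d x‖ = 1) ∧
    ∀ t : ZMod n, ‖∑ x, d x * ZMod.stdAddChar (x * t)‖ ^ 2 = (n : ℝ) - 1

section fields

variable {F K : Type} [Field F] [Fintype F] [DecidableEq F] [Field K] [Fintype K] [DecidableEq K]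
  [Algebra F K]

theorem perfect_of_fields (h2 : Module.finrank F K = 2) (h3 : 3 ≤ Fintype.card F) {n : ℕ} [NeZero n]
    (hn : n = Fintype.card F + 1) : Perfect n := by
  classical
  -- the character
  obtain ⟨w, hw0, hw1⟩ : ∃ w : F, w ≠ 0 ∧ w ≠ 1 := by
    by_contra hcon
    push Not at hcon
    have : (univ : Finset F) ⊆ {0, 1} := by
      intro x _
      by_cases hx : x = 0
      · simp [hx]
      · simp [hcon x hx]
    have h4 := Finset.card_le_card this
    have h5 := Finset.card_le_two (a := (0 : F)) (b := 1)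
    rw [Finset.card_univ] at h4
    omega
  obtain ⟨χ, hχ⟩ := MulChar.exists_apply_ne_one_of_hasEnoughRootsOfUnity K ℂ
    (a := algebraMap F K w) (fun h => hw1 ((algebraMap F K).injective (by rw [h, map_one])))
  obtain ⟨g, hg⟩ := IsCyclic.exists_generator (α := Kˣ)
  have hg0 : (g : K) ≠ 0 := g.ne_zero
  have hper : Function.Periodic (D F χ (g : K)) n := by rw [hn]; exact D_periodic h2 χ g hg0
  set d : ZMod n → ℂ := fun x => D F χ (g : K) x.val with hd
  have hdk : ∀ k : ℕ, d (k : ZMod n) = D F χ (g : K) k := by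
    intro k
    simp only [hd, ZMod.val_natCast]
    exact hper.map_mod_nat k
  have hn2 : 4 ≤ n := by omega
  have hcardU : Fintype.card Kˣ = (Fintype.card F - 1) * n := by
    rw [Fintype.card_units, card_K h2, hn]
    obtain ⟨m, hm⟩ : ∃ m, Fintype.card F = m + 2 := ⟨Fintype.card F - 2, by omega⟩
    rw [hm]
    have h5 : m + 2 - 1 = m + 1 := rfl
    rw [h5]
    have h3 : (m + 2) ^ 2 = (m + 1) * (m + 2 + 1) + 1 := by ring
    omega
  have hout : ∀ s : ℕ, ¬ n ∣ s → (g : K) ^ s ∉ Set.range (algebraMap F K) := by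
    intro s hs h
    exact hs (hn ▸ dvd_of_mem h2 g hg h)
  -- autocorrelation
  have hcorr : ∀ s : ZMod n, s ≠ 0 → ∑ x, d x * conj (d (x + s)) = 0 := by
    intro s hs
    have hs' : ¬ n ∣ s.val := by
      intro h
      apply hs
      have h1 := Nat.eq_zero_of_dvd_of_lt h (ZMod.val_lt s)
      exact (ZMod.val_eq_zero s).1 h1
    rw [sum_zmod]
    set E : ℕ → ℂ := fun k => D F χ (g : K) k * conj (D F χ (g : K) (k + s.val)) with hE
    have h1 : ∀ k ∈ range n, d (k : ZMod n) * conj (d ((k : ZMod n) + s)) = E k := by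
      intro k _
      have h5 : ((k : ZMod n) + s) = ((k + s.val : ℕ) : ZMod n) := by
        push_cast
        rw [ZMod.natCast_zmod_val]
      rw [h5, hdk, hdk]
    rw [Finset.sum_congr rfl h1]
    have hEp : Function.Periodic E n := by
      intro k
      simp only [hE]
      rw [hper k, show k + n + s.val = (k + s.val) + n by ring, hper (k + s.val)]
    have h6 := sum_periods E hEp (Fintype.card F - 1)
    rw [← hcardU] at h6
    have h7 : ∑ k ∈ range (Fintype.card Kˣ), E k = 0 := by
      have h8 := sum_gen g hg (fun y : K => χ (algebraMap F K (Algebra.trace F K y)) *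
        conj (χ (algebraMap F K (Algebra.trace F K ((g : K) ^ s.val * y))))) (by
            rw [map_zero, map_zero, MulChar.map_zero, zero_mul])
      rw [sum_corr h2 χ hw0 hχ (hout s.val hs')] at h8
      have h9 : ∀ k ∈ range (Fintype.card Kˣ), E k = χ ((g : K) ^ s.val) *
          (χ (algebraMap F K (Algebra.trace F K ((g : K) ^ k))) *
            conj (χ (algebraMap F K (Algebra.trace F K ((g : K) ^ s.val * (g : K) ^ k))))) :=
        fun k _ => D_corr χ (g : K) hg0 k s.val
      rw [Finset.sum_congr rfl h9, ← Finset.mul_sum, h8, mul_zero]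
    rw [h7] at h6
    have h10 : ((Fintype.card F - 1 : ℕ) : ℂ) ≠ 0 := by
      rw [Nat.cast_ne_zero]; omega
    exact (mul_eq_zero.1 h6.symm).resolve_left h10
  -- the zero
  obtain ⟨y, hy⟩ := (pair_bij h2 (hout 1 (by
    intro h; have := Nat.le_of_dvd one_pos h; omega))).2 ((0 : F), (1 : F))
  simp only [Prod.mk.injEq] at hy
  have hy0 : y ≠ 0 := by
    rintro rfl
    rw [mul_zero, map_zero] at hy
    exact zero_ne_one hy.2
  obtain ⟨j, hj⟩ : ∃ j : ℕ, (g : K) ^ j = y := by
    have h1 := hg (Units.mk0 y hy0)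
    rw [← mem_powers_iff_mem_zpowers] at h1
    obtain ⟨j, hj⟩ := h1
    refine ⟨j, ?_⟩
    have := congrArg Units.val hj
    simpa using this
  have hgc : (g : K) ^ Fintype.card Kˣ = 1 := by
    rw [← Units.val_pow_eq_pow_val, pow_card_eq_one, Units.val_one]
  have hzero : d (j : ZMod n) = 0 := by
    rw [hdk]
    unfold D
    rw [hj, hy.1, map_zero, MulChar.map_zero, mul_zero]
  have hnorm : ∀ x : ZMod n, x ≠ (j : ZMod n) → ‖d x‖ = 1 := by
    intro x hx
    have h1 : Algebra.trace F K ((g : K) ^ x.val) ≠ 0 := by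
      intro h1
      apply hx
      set c := Fintype.card Kˣ with hc
      have hcpos : 0 < c := Fintype.card_pos
      by_cases hmem : (g : K) ^ (x.val + j * (c - 1)) ∈ Set.range (algebraMap F K)
      · have h5 := dvd_of_mem h2 g hg hmem
        rw [← hn] at h5
        have h6 : ((x.val + j * (c - 1) : ℕ) : ZMod n) = 0 := (ZMod.natCast_eq_zero_iff _ _).2 h5
        have h7 : (c : ZMod n) = 0 := by
          rw [hcardU]; push_cast; rw [ZMod.natCast_self, mul_zero]
        push_cast [Nat.cast_sub hcpos] at h6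
        rw [ZMod.natCast_zmod_val, h7] at h6
        linear_combination h6
      · exfalso
        have h5 : (g : K) ^ (x.val + j * (c - 1)) * y = (g : K) ^ x.val := by
          rw [← hj, pow_add, mul_assoc, ← pow_add]
          have : j * (c - 1) + j = c * j := by
            obtain ⟨c', hc'⟩ : ∃ c', c = c' + 1 := ⟨c - 1, by omega⟩
            rw [hc']; simp; ring
          rw [this, pow_mul, hgc, one_pow, mul_one]
        exact hy0 (trace_inj h2 hmem y hy.1 (by rw [h5]; exact h1))
    simp only [hd, D, norm_mul]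
    rw [RCLike.norm_conj, norm_chi χ (pow_ne_zero _ hg0), norm_chi χ ((map_ne_zero _).2 h1), one_mul]
  refine ⟨d, (j : ZMod n), hzero, hnorm, dft_of_corr d hcorr ?_⟩
  rw [← Finset.add_sum_erase univ (fun x => ‖d x‖ ^ 2) (mem_univ (j : ZMod n)), hzero, norm_zero]
  rw [Finset.sum_congr rfl (fun x hx => by rw [hnorm x (ne_of_mem_erase hx)])]
  rw [Finset.sum_const, Finset.card_erase_of_mem (mem_univ _), Finset.card_univ, ZMod.card]
  simp only [nsmul_eq_mul, one_pow, mul_one]
  rw [Nat.cast_sub (by omega)]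
  norm_num

end fields

theorem perfect_primePow (q : ℕ) (hq : IsPrimePow q) (h3 : 3 ≤ q) : Perfect (q + 1) := by
  classical
  rw [isPrimePow_nat_iff] at hq
  obtain ⟨p, m, hp, hm, rfl⟩ := hq
  haveI : Fact p.Prime := ⟨hp⟩
  haveI : Fintype (GaloisField p m) := Fintype.ofFinite _
  haveI : Fintype (FiniteField.Extension (GaloisField p m) p 2) := Fintype.ofFinite _
  have hc : Fintype.card (GaloisField p m) = p ^ m := by
    rw [← Nat.card_eq_fintype_card, GaloisField.card p m hm.ne']
  exact perfect_of_fields (F := GaloisField p m) (K := FiniteField.Extension (GaloisField p m) p 2)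
    (FiniteField.finrank_extension _ p 2) (by rw [hc]; exact h3) (by rw [hc])

end Pool.Agent.Run7.h187.EX
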