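import Mathlib

set_option autoImplicit false

namespace Pool.Agent.Run7.h187.EX

open Finset Complex
open scoped ComplexConjugate

section fields

variable {F K : Type} [Field F] [Fintype F] [DecidableEq F] [Field K] [Fintype K] [DecidableEq K]
  [Algebra F K]

theorem card_K (h2 : Module.finrank F K = 2) : Fintype.card K = Fintype.card F ^ 2 := by
  rw [← h2]; exact Module.card_eq_pow_finrank

theorem surj_pair (h2 : Module.finrank F K = 2) {a : K} (ha : a ∉ Set.range (algebraMap F K)) (z : K) :
    ∃ u v : F, z = algebraMap F K u + algebraMap F K v * a := by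
  have hinj : Function.Injective (fun w : F × F => algebraMap F K w.1 + algebraMap F K w.2 * a) := by
    rintro ⟨u, v⟩ ⟨u', v'⟩ h
    simp only at h
    by_cases hv : v = v'
    · subst hv
      have : algebraMap F K u = algebraMap F K u' := by linear_combination h
      rw [(algebraMap F K).injective this]
    · exfalso
      apply ha
      have hv' : algebraMap F K v - algebraMap F K v' ≠ 0 := by
        rw [← map_sub]
        exact fun h0 => hv (sub_eq_zero.1 ((map_eq_zero _).1 h0))
      refine ⟨(u' - u) / (v - v'), ?_⟩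
      rw [map_div₀, map_sub, map_sub, div_eq_iff hv']
      linear_combination -h
  have hb := (Fintype.bijective_iff_injective_and_card _).2 ⟨hinj, by
    rw [Fintype.card_prod, card_K h2, sq]⟩
  obtain ⟨⟨u, v⟩, h⟩ := hb.2 z
  exact ⟨u, v, h.symm⟩

theorem trace_inj (h2 : Module.finrank F K = 2) {a : K} (ha : a ∉ Set.range (algebraMap F K)) (y : K)
    (h1 : Algebra.trace F K y = 0) (h3 : Algebra.trace F K (a * y) = 0) : y = 0 := by
  by_contra hy
  have hz : ∀ z : K, Algebra.trace F K z = 0 := by
    intro z
    obtain ⟨u, v, h⟩ := surj_pair h2 ha (z / y)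
    have h4 : z = u • y + v • (a * y) := by
      rw [Algebra.smul_def, Algebra.smul_def]
      field_simp at h
      linear_combination h
    rw [h4, map_add, map_smul, map_smul, h1, h3, smul_zero, smul_zero, add_zero]
  haveI : FiniteDimensional F K := Module.Finite.of_finite
  have := Algebra.trace_ne_zero F K
  exact this (LinearMap.ext hz)

theorem pair_bij (h2 : Module.finrank F K = 2) {a : K} (ha : a ∉ Set.range (algebraMap F K)) :
    Function.Bijective (fun y : K => (Algebra.trace F K y, Algebra.trace F K (a * y))) := by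
  refine (Fintype.bijective_iff_injective_and_card _).2 ⟨?_, by rw [Fintype.card_prod, card_K h2, sq]⟩
  intro y y' h
  simp only [Prod.mk.injEq] at h
  refine sub_eq_zero.1 (trace_inj h2 ha (y - y') ?_ ?_)
  · rw [map_sub, h.1, sub_self]
  · rw [mul_sub, map_sub, h.2, sub_self]

theorem norm_chi (χ : MulChar K ℂ) {y : K} (hy : y ≠ 0) : ‖χ y‖ = 1 := by
  have h1 : y ^ (Fintype.card K - 1) = 1 := FiniteField.pow_card_sub_one_eq_one y hy
  have h2 : χ y ^ (Fintype.card K - 1) = 1 := by rw [← map_pow, h1, map_one]
  refine Complex.norm_eq_one_of_pow_eq_one h2 ?_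
  have := Fintype.one_lt_card (α := K)
  omega

theorem sum_psi (χ : MulChar K ℂ) {w : F} (hw : w ≠ 0) (h : χ (algebraMap F K w) ≠ 1) :
    ∑ u : F, χ (algebraMap F K u) = 0 := by
  have h1 : ∑ u : F, χ (algebraMap F K (w * u)) = ∑ u : F, χ (algebraMap F K u) :=
    Equiv.sum_comp (Equiv.mulLeft₀ w hw) (fun u => χ (algebraMap F K u))
  simp only [map_mul, ← Finset.mul_sum] at h1
  have h2 : (χ (algebraMap F K w) - 1) * ∑ u : F, χ (algebraMap F K u) = 0 := by
    rw [sub_mul, h1, one_mul, sub_self]
  exact (mul_eq_zero.1 h2).resolve_left (sub_ne_zero.2 h)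

theorem sum_corr (h2 : Module.finrank F K = 2) (χ : MulChar K ℂ) {w : F} (hw : w ≠ 0)
    (h : χ (algebraMap F K w) ≠ 1) {a : K} (ha : a ∉ Set.range (algebraMap F K)) :
    ∑ y : K, χ (algebraMap F K (Algebra.trace F K y)) *
      conj (χ (algebraMap F K (Algebra.trace F K (a * y)))) = 0 := by
  have h1 := (pair_bij h2 ha).sum_comp
    (fun p : F × F => χ (algebraMap F K p.1) * conj (χ (algebraMap F K p.2)))
  simp only at h1
  rw [h1, Fintype.sum_prod_type]
  simp only [← Finset.mul_sum]
  rw [← Finset.sum_mul, sum_psi χ hw h, zero_mul]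

end fields

end Pool.Agent.Run7.h187.EX
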