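import Pool.Agent.Run7.h187.EX.Fam

set_option autoImplicit false

namespace Pool.Agent.Run7.h187.EX

open Finset Complex
open scoped ComplexConjugate

theorem perfect_prime (p : ℕ) [hp : Fact p.Prime] (h4 : p % 4 = 1) : Perfect p := by
  classical
  have hp2 : p ≠ 2 := by rintro rfl; norm_num at h4
  have hp5 : 5 ≤ p := by
    have := hp.out.two_le
    by_contra hcon
    interval_cases p <;> simp_all
  have hchar : ringChar (ZMod p) ≠ 2 := by rw [ZMod.ringChar_zmod_n]; exact hp2
  set χ : MulChar (ZMod p) ℂ := (quadraticChar (ZMod p)).ringHomComp (Int.castRingHom ℂ) with hχ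
  have hχq : χ.IsQuadratic := (quadraticChar_isQuadratic (ZMod p)).comp _
  have hχ1 : χ ≠ 1 := by
    intro h
    obtain ⟨a, ha⟩ := quadraticChar_exists_neg_one' (F := ZMod p) hchar
    have h1 : χ (a : ZMod p) = 1 := by rw [h]; exact MulChar.one_apply_coe a
    rw [hχ, MulChar.ringHomComp_apply, ha] at h1
    norm_num at h1
  have hprim : (ZMod.stdAddChar (N := p)).IsPrimitive := ZMod.isPrimitive_stdAddChar p
  set G : ℂ := gaussSum χ (ZMod.stdAddChar (N := p)) with hG
  have hm1 : χ (-1) = 1 := by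
    rw [hχ, MulChar.ringHomComp_apply, quadraticChar_neg_one hchar, ZMod.card,
      ZMod.χ₄_nat_one_mod_four h4]
    simp
  have hG2 : G ^ 2 = p := by
    rw [hG, gaussSum_sq hχ1 hχq hprim, hm1, ZMod.card, one_mul]
  have hval : ∀ t : ZMod p, t ≠ 0 → χ t ^ 2 = 1 := by
    intro t ht
    rw [hχ, MulChar.ringHomComp_apply, ← map_pow, quadraticChar_sq_one ht, map_one]
  have hreal : ∀ t : ZMod p, conj (χ t) = χ t := by
    intro t
    rw [hχ, MulChar.ringHomComp_apply]
    simp
  -- G is real
  have hGr : conj G = G := by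
    have h1 : ((G.re : ℂ) + G.im * I) ^ 2 = p := by rw [Complex.re_add_im]; exact hG2
    have h2 : (((G.re : ℂ) + G.im * I) ^ 2).im = 0 := by rw [h1]; simp
    have h3 : (((G.re : ℂ) + G.im * I) ^ 2).re = p := by rw [h1]; simp
    simp [sq] at h2 h3
    have h5 : G.im = 0 := by
      by_contra h5
      have h6 : G.re = 0 := by
        have : G.re * G.im = 0 := by linarith
        exact (mul_eq_zero.1 this).resolve_right h5
      rw [h6] at h3
      have h7 : (0 : ℝ) < p := by exact_mod_cast hp.out.pos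
      nlinarith [mul_self_nonneg G.im]
    exact Complex.conj_eq_iff_im.2 h5
  set A : ℝ := 1 / Real.sqrt (p - 1) with hA
  set B : ℝ := Real.sqrt ((p - 2) / (p - 1)) with hB
  have hpR : (5 : ℝ) ≤ p := by exact_mod_cast hp5
  have hne : (p : ℝ) - 1 ≠ 0 := by intro h; linarith
  have hA2 : A ^ 2 = 1 / (p - 1) := by
    rw [hA, div_pow, one_pow, Real.sq_sqrt (by linarith)]
  have hB2 : B ^ 2 = (p - 2) / (p - 1) := by
    rw [hB, Real.sq_sqrt (div_nonneg (by linarith) (by linarith))]
  have hns : ∀ z : ℂ, ∀ r : ℝ, z * conj z = r → ‖z‖ ^ 2 = r := by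
    intro z r h
    rw [Complex.mul_conj, Complex.normSq_eq_norm_sq] at h
    exact_mod_cast h
  refine ⟨fun x => if x = 0 then 0 else A + B * I * χ x, 0, by simp, ?_, ?_⟩
  · intro x hx
    simp only [if_neg hx]
    have h1 : ‖(A : ℂ) + B * I * χ x‖ ^ 2 = 1 := by
      refine hns _ 1 ?_
      have h2 : ((A : ℂ) + B * I * χ x) * conj ((A : ℂ) + B * I * χ x) = A ^ 2 + B ^ 2 * χ x ^ 2 := by
        simp only [map_add, map_mul, Complex.conj_ofReal, Complex.conj_I, hreal]
        linear_combination (-(B : ℂ) ^ 2 * χ x ^ 2) * Complex.I_sq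
      rw [h2, hval x hx, mul_one]
      have h3 : A ^ 2 + B ^ 2 = 1 := by
        rw [hA2, hB2]; field_simp; ring
      exact_mod_cast h3
    have h2 := norm_nonneg ((A : ℂ) + B * I * χ x)
    nlinarith
  · intro t
    have hsum : ∑ x : ZMod p, (if x = 0 then (0 : ℂ) else A + B * I * χ x) * ZMod.stdAddChar (x * t) =
        A * (∑ x : ZMod p, (ZMod.stdAddChar (x * t) : ℂ) - 1) +
          B * I * ∑ x : ZMod p, χ x * ZMod.stdAddChar (x * t) := by
      have h1 : ∀ x : ZMod p, (if x = 0 then (0 : ℂ) else A + B * I * χ x) * ZMod.stdAddChar (x * t) =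
          A * (ZMod.stdAddChar (x * t) - if x = 0 then 1 else 0) + B * I * (χ x * ZMod.stdAddChar (x * t)) := by
        intro x
        by_cases hx : x = 0
        · subst hx
          have h0 : χ 0 = 0 := MulChar.map_zero χ
          simp [h0]
        · rw [if_neg hx, if_neg hx]; ring
      rw [Finset.sum_congr rfl fun x _ => h1 x, Finset.sum_add_distrib, ← Finset.mul_sum, ← Finset.mul_sum,
        Finset.sum_sub_distrib, Finset.sum_ite_eq' univ (0 : ZMod p) (fun _ => (1 : ℂ)), if_pos (mem_univ _)]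
    simp only at hsum ⊢
    rw [hsum]
    have hadd : ∑ x : ZMod p, (ZMod.stdAddChar (x * t) : ℂ) = if t = 0 then (p : ℂ) else 0 := by
      rw [AddChar.sum_mulShift t hprim, ZMod.card]
      split_ifs <;> simp
    rw [hadd]
    refine hns _ _ ?_
    by_cases ht : t = 0
    · subst ht
      have h1 : ∑ x : ZMod p, χ x * ZMod.stdAddChar (x * 0) = 0 := by
        simp only [mul_zero, AddChar.map_zero_eq_one, mul_one]
        exact MulChar.sum_eq_zero_of_ne_one hχ1
      rw [h1, if_pos rfl, mul_zero, add_zero]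
      simp only [map_mul, map_sub, map_one, Complex.conj_ofReal, map_natCast]
      have h3 : A ^ 2 * ((p : ℝ) - 1) ^ 2 = p - 1 := by
        rw [hA2]; field_simp
      have h4 : ((A ^ 2 * ((p : ℝ) - 1) ^ 2 : ℝ) : ℂ) = ((p - 1 : ℝ) : ℂ) := by rw [h3]
      push_cast at h4 ⊢
      linear_combination h4
    · have h1 : ∑ x : ZMod p, χ x * ZMod.stdAddChar (x * t) = χ t * G := by
        have h2 := gaussSum_mulShift χ (ZMod.stdAddChar (N := p)) (Units.mk0 t ht)
        rw [← hG] at h2
        have h3 : gaussSum χ (AddChar.mulShift (ZMod.stdAddChar (N := p)) (Units.mk0 t ht : ZMod p)) =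
            ∑ x : ZMod p, χ x * ZMod.stdAddChar (x * t) := by
          unfold gaussSum
          refine Finset.sum_congr rfl fun x _ => ?_
          rw [AddChar.mulShift_apply, Units.val_mk0, mul_comm t x]
        rw [h3, Units.val_mk0] at h2
        have h5 := hval t ht
        linear_combination χ t * h2 - (∑ x : ZMod p, χ x * ZMod.stdAddChar (x * t)) * h5
      rw [h1, if_neg ht]
      have h2 : ((A : ℂ) * (0 - 1) + B * I * (χ t * G)) * conj ((A : ℂ) * (0 - 1) + B * I * (χ t * G)) =
          A ^ 2 + B ^ 2 * (χ t ^ 2 * G ^ 2) := by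
        simp only [map_add, map_mul, map_sub, map_zero, map_one, Complex.conj_ofReal, Complex.conj_I, hreal, hGr]
        linear_combination (-(B : ℂ) ^ 2 * χ t ^ 2 * G ^ 2) * Complex.I_sq
      rw [h2, hval t ht, hG2, one_mul]
      have h3 : A ^ 2 + B ^ 2 * p = (p : ℝ) - 1 := by
        rw [hA2, hB2]; field_simp; ring
      exact_mod_cast h3

end Pool.Agent.Run7.h187.EX
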