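import Pool.Agent.Run7.h187.EX.Prm

set_option autoImplicit false

namespace Pool.Agent.Run7.h187.EX

open Finset Complex
open scoped ComplexConjugate

/-- The Sidon constant of `E`: the supremum of `∑ |a x|` over the coefficients `a` for which
`|∑_{x ∈ E} a x e(x t / n)| ≤ 1` for all `t`. -/
noncomputable def sidon {n : ℕ} [NeZero n] (E : Finset (ZMod n)) : ℝ :=
  sSup {s : ℝ | ∃ a : ZMod n → ℂ, (∀ t : ZMod n, ‖∑ x ∈ E, a x * ZMod.stdAddChar (x * t)‖ ≤ 1) ∧
    s = ∑ x ∈ E, ‖a x‖}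

/-- `E` is extreme: its Sidon constant is `√|E|`. -/
def Extreme {n : ℕ} [NeZero n] (E : Finset (ZMod n)) : Prop := sidon E = Real.sqrt (#E : ℝ)

variable {n : ℕ} [NeZero n]

theorem sum_le (E : Finset (ZMod n)) (a : ZMod n → ℂ)
    (h : ∀ t : ZMod n, ‖∑ x ∈ E, a x * ZMod.stdAddChar (x * t)‖ ≤ 1) :
    ∑ x ∈ E, ‖a x‖ ≤ Real.sqrt (#E : ℝ) := by
  classical
  set b : ZMod n → ℂ := fun x => if x ∈ E then a x else 0 with hb
  have h1 : ∀ t : ZMod n, ∑ x, b x * ZMod.stdAddChar (x * t) = ∑ x ∈ E, a x * ZMod.stdAddChar (x * t) := by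
    intro t
    rw [← Finset.sum_filter_add_sum_filter_not univ (fun x => x ∈ E)]
    have h2 : ∑ x ∈ univ.filter (fun x => x ∉ E), b x * ZMod.stdAddChar (x * t) = 0 := by
      refine Finset.sum_eq_zero fun x hx => ?_
      simp only [hb, if_neg (mem_filter.1 hx).2, zero_mul]
    have h3 : univ.filter (fun x => x ∈ E) = E := by ext x; simp
    rw [h2, h3, add_zero]
    refine Finset.sum_congr rfl fun x hx => ?_
    simp only [hb, if_pos hx]
  have h4 := plancherel b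
  have h5 : ∑ x, ‖b x‖ ^ 2 = ∑ x ∈ E, ‖a x‖ ^ 2 := by
    rw [← Finset.sum_filter_add_sum_filter_not univ (fun x => x ∈ E)]
    have h2 : ∑ x ∈ univ.filter (fun x => x ∉ E), ‖b x‖ ^ 2 = 0 := by
      refine Finset.sum_eq_zero fun x hx => ?_
      simp only [hb, if_neg (mem_filter.1 hx).2, norm_zero]
      norm_num
    have h3 : univ.filter (fun x => x ∈ E) = E := by ext x; simp
    rw [h2, h3, add_zero]
    refine Finset.sum_congr rfl fun x hx => ?_
    simp only [hb, if_pos hx]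
  rw [h5] at h4
  have h6 : ∑ t : ZMod n, ‖∑ x, b x * ZMod.stdAddChar (x * t)‖ ^ 2 ≤ n := by
    have h7 : ∑ t : ZMod n, ‖∑ x, b x * ZMod.stdAddChar (x * t)‖ ^ 2 ≤ ∑ _t : ZMod n, (1 : ℝ) := by
      refine Finset.sum_le_sum fun t _ => ?_
      rw [h1 t]
      have := h t
      have h0 := norm_nonneg (∑ x ∈ E, a x * ZMod.stdAddChar (x * t))
      nlinarith
    refine h7.trans ?_
    rw [Finset.sum_const, Finset.card_univ, ZMod.card]
    simp
  have hn : (0 : ℝ) < n := by exact_mod_cast Nat.pos_of_ne_zero (NeZero.ne n)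
  have h7 : ∑ x ∈ E, ‖a x‖ ^ 2 ≤ 1 := by
    rw [h4] at h6
    by_contra hcon
    push Not at hcon
    nlinarith
  have h8 : (∑ x ∈ E, ‖a x‖) ^ 2 ≤ (#E : ℝ) * ∑ x ∈ E, ‖a x‖ ^ 2 := sq_sum_le_card_mul_sum_sq
  refine Real.le_sqrt_of_sq_le ?_
  have h9 : (0 : ℝ) ≤ #E := Nat.cast_nonneg _
  nlinarith

theorem extreme_of (E : Finset (ZMod n)) (hE : E.Nonempty) (c : ZMod n → ℂ) (h1 : ∀ x ∈ E, ‖c x‖ = 1)
    (h2 : ∀ t : ZMod n, ‖∑ x ∈ E, c x * ZMod.stdAddChar (x * t)‖ ^ 2 = (#E : ℝ)) : Extreme E := by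
  unfold Extreme sidon
  have hN : (0 : ℝ) < #E := by exact_mod_cast hE.card_pos
  have hs : (0 : ℝ) < Real.sqrt (#E : ℝ) := Real.sqrt_pos.2 hN
  refine IsGreatest.csSup_eq ⟨⟨fun x => c x / (Real.sqrt (#E : ℝ) : ℂ), ?_, ?_⟩, ?_⟩
  · intro t
    have h3 : ∑ x ∈ E, c x / (Real.sqrt (#E : ℝ) : ℂ) * ZMod.stdAddChar (x * t) =
        (∑ x ∈ E, c x * ZMod.stdAddChar (x * t)) / (Real.sqrt (#E : ℝ) : ℂ) := by
      rw [Finset.sum_div]
      exact Finset.sum_congr rfl fun x _ => by ring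
    rw [h3, norm_div, Complex.norm_real, Real.norm_of_nonneg hs.le, div_le_one hs]
    refine Real.le_sqrt_of_sq_le ?_
    rw [h2 t]
  · have h3 : ∀ x ∈ E, ‖c x / (Real.sqrt (#E : ℝ) : ℂ)‖ = 1 / Real.sqrt (#E : ℝ) := by
      intro x hx
      rw [norm_div, Complex.norm_real, Real.norm_of_nonneg hs.le, h1 x hx]
    rw [Finset.sum_congr rfl h3, Finset.sum_const, nsmul_eq_mul, mul_one_div, Real.div_sqrt]
  · rintro s ⟨a, ha, rfl⟩
    exact sum_le E a ha

theorem extreme_of_perfect (hn : 2 ≤ n) (h : Perfect n) (E : Finset (ZMod n)) (hE : #E = n - 1) : Extreme E := by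
  classical
  obtain ⟨d, x₀, h0, h1, h2⟩ := h
  have hc : #(univ \ E) = 1 := by
    rw [Finset.card_sdiff_of_subset (subset_univ _), Finset.card_univ, ZMod.card, hE]
    omega
  obtain ⟨y, hy⟩ := Finset.card_eq_one.1 hc
  have hmem : ∀ x, x ∈ E ↔ x ≠ y := by
    intro x
    have h3 : x ∈ univ \ E ↔ x ∈ ({y} : Finset (ZMod n)) := by rw [hy]
    simp only [mem_sdiff, mem_univ, true_and, mem_singleton] at h3
    rw [ne_eq, ← h3, not_not]
  have hEe : E = univ.erase y := by ext x; simp [hmem]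
  refine extreme_of E ?_ (fun x => d (x + (x₀ - y))) ?_ ?_
  · rw [← Finset.card_pos, hE]; omega
  · intro x hx
    refine h1 _ fun h => (hmem x).1 hx ?_
    linear_combination h
  · intro t
    have h3 : ∑ x ∈ E, d (x + (x₀ - y)) * ZMod.stdAddChar (x * t) =
        ∑ x, d (x + (x₀ - y)) * ZMod.stdAddChar (x * t) := by
      rw [hEe]
      refine Finset.sum_erase _ ?_
      rw [show y + (x₀ - y) = x₀ by ring, h0, zero_mul]
    have h4 : ∑ x, d (x + (x₀ - y)) * ZMod.stdAddChar (x * t) =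
        ZMod.stdAddChar (-((x₀ - y) * t)) * ∑ x, d x * ZMod.stdAddChar (x * t) := by
      have h5 := Equiv.sum_comp (Equiv.addRight (x₀ - y))
        (fun z => d z * (ZMod.stdAddChar ((z - (x₀ - y)) * t) : ℂ))
      simp only [Equiv.coe_addRight, add_sub_cancel_right] at h5
      rw [h5, Finset.mul_sum]
      refine Finset.sum_congr rfl fun z _ => ?_
      rw [show (z - (x₀ - y)) * t = -((x₀ - y) * t) + z * t by ring, AddChar.map_add_eq_mul]
      ring
    rw [h3, h4, norm_mul, norm_e, one_mul, h2 t, hE, Nat.cast_sub (by omega), Nat.cast_one]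

end Pool.Agent.Run7.h187.EX
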